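import Pool.Agent.Q50.HL.Defs
import Pool.Agent.Q50.FP.Core

/-!
# Rational and complex matrices which kill a form
-/

set_option maxHeartbeats 4000000
set_option synthInstance.maxHeartbeats 400000

open Matrix

namespace Pool.Agent.Q50.HL

open Pool.Agent.H204R3.SP (Kills kills_bracket)

variable {κ : Type} [Fintype κ] [DecidableEq κ] {n : ℕ}

/-- the coefficients of a multilinear form -/
def cf (φ : MultilinearMap ℚ (fun _ : κ => Fin n → ℚ) ℚ) (J : κ → Fin n) : ℚ :=
  φ fun i => Pi.single (J i) 1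

/-- the rational matrix kills the form -/
def KQ (x : Matrix (Fin n) (Fin n) ℚ) (f : (κ → Fin n) → ℚ) : Prop :=
  ∀ J : κ → Fin n, ∑ i, ∑ a, x a (J i) * f (Function.update J i a) = 0

/-- the complex matrix kills the form -/
def KC (M : Matrix (Fin n) (Fin n) ℂ) (f : (κ → Fin n) → ℚ) : Prop :=
  ∀ J : κ → Fin n, ∑ i, ∑ a, M a (J i) * (f (Function.update J i a) : ℂ) = 0

/-- the derivation -/
noncomputable def dm (x : Module.End ℚ (Fin n → ℚ))
    (φ : MultilinearMap ℚ (fun _ : κ => Fin n → ℚ) ℚ) :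
    MultilinearMap ℚ (fun _ : κ => Fin n → ℚ) ℚ :=
  ∑ k, φ.compLinearMap (Function.update (fun _ => LinearMap.id) k x)

theorem dm_apply (x : Module.End ℚ (Fin n → ℚ))
    (φ : MultilinearMap ℚ (fun _ : κ => Fin n → ℚ) ℚ) (v : κ → Fin n → ℚ) :
    dm x φ v = ∑ k, φ (Function.update v k (x (v k))) := by
  unfold dm
  rw [_root_.sum_apply]
  refine Finset.sum_congr rfl fun k _ => ?_
  rw [MultilinearMap.compLinearMap_apply]
  congr 1
  funext i
  by_cases h : i = k
  · subst h
    rw [Function.update_self, Function.update_self]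
  · rw [Function.update_of_ne h, Function.update_of_ne h]
    rfl

theorem kills_dm (x : Module.End ℚ (Fin n → ℚ))
    (φ : MultilinearMap ℚ (fun _ : κ => Fin n → ℚ) ℚ) : Kills x φ ↔ dm x φ = 0 := by
  constructor
  · intro h
    refine MultilinearMap.ext fun v => ?_
    rw [dm_apply]
    exact h v
  · intro h v
    rw [← dm_apply, h]
    rfl

theorem apply_single (x : Module.End ℚ (Fin n → ℚ)) (j : Fin n) :
    x (Pi.single j 1) = ∑ a, LinearMap.toMatrix' x a j • (Pi.single a 1 : Fin n → ℚ) := by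
  funext b
  rw [Finset.sum_apply, Finset.sum_eq_single b]
  · rw [Pi.smul_apply, Pi.single_eq_same, smul_eq_mul, mul_one, LinearMap.toMatrix'_apply]
  · intro a _ hab
    rw [Pi.smul_apply, Pi.single_eq_of_ne (Ne.symm hab), smul_zero]
  · intro h
    exact absurd (Finset.mem_univ _) h

theorem dm_single (x : Module.End ℚ (Fin n → ℚ))
    (φ : MultilinearMap ℚ (fun _ : κ => Fin n → ℚ) ℚ) (J : κ → Fin n) :
    dm x φ (fun i => Pi.single (J i) 1) =
      ∑ i, ∑ a, LinearMap.toMatrix' x a (J i) * cf φ (Function.update J i a) := by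
  rw [dm_apply]
  refine Finset.sum_congr rfl fun i _ => ?_
  rw [apply_single, MultilinearMap.map_update_sum]
  refine Finset.sum_congr rfl fun a _ => ?_
  rw [MultilinearMap.map_update_smul, smul_eq_mul]
  congr 1
  unfold cf
  congr 1
  funext l
  by_cases h : l = i
  · subst h
    rw [Function.update_self, Function.update_self]
  · rw [Function.update_of_ne h, Function.update_of_ne h]

theorem kills_iff (x : Module.End ℚ (Fin n → ℚ))
    (φ : MultilinearMap ℚ (fun _ : κ => Fin n → ℚ) ℚ) :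
    Kills x φ ↔ KQ (LinearMap.toMatrix' x) (cf φ) := by
  rw [kills_dm]
  constructor
  · intro h J
    rw [← dm_single, h]
    rfl
  · intro h
    refine Module.Basis.ext_multilinear (fun _ => Pi.basisFun ℚ (Fin n)) fun J => ?_
    have h1 := h J
    rw [← dm_single] at h1
    simpa only [Pi.basisFun_apply, _root_.zero_apply] using h1

/-- the form with given coefficients -/
noncomputable def mk (f : (κ → Fin n) → ℚ) : MultilinearMap ℚ (fun _ : κ => Fin n → ℚ) ℚ :=
  ∑ J, f J • (MultilinearMap.mkPiAlgebra ℚ κ ℚ).compLinearMap fun i => LinearMap.proj (J i)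

theorem cf_mk (f : (κ → Fin n) → ℚ) : cf (mk f) = f := by
  funext J
  unfold cf mk
  rw [_root_.sum_apply, Finset.sum_eq_single J]
  · rw [_root_.smul_apply, MultilinearMap.compLinearMap_apply,
      MultilinearMap.mkPiAlgebra_apply]
    simp
  · intro K _ hK
    rw [_root_.smul_apply, MultilinearMap.compLinearMap_apply,
      MultilinearMap.mkPiAlgebra_apply]
    obtain ⟨i, hi⟩ := Function.ne_iff.1 hK
    rw [Finset.prod_eq_zero (Finset.mem_univ i), smul_zero]
    simp [hi]
  · intro h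
    exact absurd (Finset.mem_univ _) h

/-- two complex matrices in terms of rational matrices -/
theorem exists_coord (M M' : Matrix (Fin n) (Fin n) ℂ) :
    ∃ (N : ℕ) (c : Fin N → ℂ) (x y : Fin N → Matrix (Fin n) (Fin n) ℚ),
      LinearIndependent ℚ c ∧ M = ∑ j, c j • (x j).map (algebraMap ℚ ℂ) ∧
        M' = ∑ j, c j • (y j).map (algebraMap ℚ ℂ) := by
  classical
  let T : Set ℂ := Set.range (fun p : Fin n × Fin n => M p.1 p.2) ∪
    Set.range (fun p : Fin n × Fin n => M' p.1 p.2)
  have hT : T.Finite := (Set.finite_range _).union (Set.finite_range _)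
  let E : Submodule ℚ ℂ := Submodule.span ℚ T
  have : FiniteDimensional ℚ E := FiniteDimensional.span_of_finite ℚ hT
  let b := Module.finBasis ℚ E
  have hM : ∀ i j, M i j ∈ E := fun i j => Submodule.subset_span (Or.inl ⟨(i, j), rfl⟩)
  have hM' : ∀ i j, M' i j ∈ E := fun i j => Submodule.subset_span (Or.inr ⟨(i, j), rfl⟩)
  have key : ∀ z (hz : z ∈ E), z = ∑ l, (b l : ℂ) * algebraMap ℚ ℂ (b.repr ⟨z, hz⟩ l) := by
    intro z hz
    have h1 := b.sum_repr ⟨z, hz⟩
    have h2 := congrArg (E.subtype) h1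
    rw [map_sum] at h2
    simp only [map_smul, Submodule.subtype_apply] at h2
    refine h2.symm.trans (Finset.sum_congr rfl fun l _ => ?_)
    rw [Algebra.smul_def, mul_comm]
  refine ⟨_, fun l => (b l : ℂ), fun l => Matrix.of fun i j => b.repr ⟨M i j, hM i j⟩ l,
    fun l => Matrix.of fun i j => b.repr ⟨M' i j, hM' i j⟩ l, ?_, ?_, ?_⟩
  · exact b.linearIndependent.map' E.subtype (Submodule.ker_subtype E)
  · ext i j
    rw [Matrix.sum_apply]
    exact key _ (hM i j)
  · ext i j
    rw [Matrix.sum_apply]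
    exact key _ (hM' i j)

variable {N : ℕ} {c : Fin N → ℂ} (hc : LinearIndependent ℚ c)
  (x : Fin N → Matrix (Fin n) (Fin n) ℚ)

include hc in
theorem eq_zero_of_sum {q : Fin N → ℚ} (h : ∑ j, c j * algebraMap ℚ ℂ (q j) = 0) (j : Fin N) :
    q j = 0 := by
  rw [Fintype.linearIndependent_iff] at hc
  refine hc q ?_ j
  rw [← h]
  refine Finset.sum_congr rfl fun j _ => ?_
  rw [Algebra.smul_def, mul_comm]

include hc in
theorem kc_iff (f : (κ → Fin n) → ℚ) :
    KC (∑ j, c j • (x j).map (algebraMap ℚ ℂ)) f ↔ ∀ j, KQ (x j) f := by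
  have key : ∀ J : κ → Fin n, ∑ i, ∑ a, (∑ j, c j • (x j).map (algebraMap ℚ ℂ)) a (J i) *
      (f (Function.update J i a) : ℂ) =
      ∑ j, c j * algebraMap ℚ ℂ (∑ i, ∑ a, x j a (J i) * f (Function.update J i a)) := by
    intro J
    have h1 : ∀ j, c j * algebraMap ℚ ℂ (∑ i, ∑ a, x j a (J i) * f (Function.update J i a)) =
        ∑ i, ∑ a, c j * (algebraMap ℚ ℂ (x j a (J i)) * (f (Function.update J i a) : ℂ)) := by
      intro j
      rw [map_sum, Finset.mul_sum]
      refine Finset.sum_congr rfl fun i _ => ?_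
      rw [map_sum, Finset.mul_sum]
      refine Finset.sum_congr rfl fun a _ => ?_
      rw [map_mul]
      rfl
    have h2 : ∑ j, c j * algebraMap ℚ ℂ (∑ i, ∑ a, x j a (J i) * f (Function.update J i a)) =
        ∑ j, ∑ i, ∑ a, c j * (algebraMap ℚ ℂ (x j a (J i)) * (f (Function.update J i a) : ℂ)) :=
      Finset.sum_congr rfl fun j _ => h1 j
    have h3 : ∀ g : Fin N → κ → Fin n → ℂ, ∑ j, ∑ i, ∑ a, g j i a = ∑ i, ∑ a, ∑ j, g j i a := by
      intro g
      rw [Finset.sum_comm]
      exact Finset.sum_congr rfl fun i _ => Finset.sum_comm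
    rw [h2, h3]
    refine Finset.sum_congr rfl fun i _ => ?_
    refine Finset.sum_congr rfl fun a _ => ?_
    rw [Matrix.sum_apply, Finset.sum_mul]
    refine Finset.sum_congr rfl fun j _ => ?_
    rw [Matrix.smul_apply, Matrix.map_apply, smul_eq_mul, mul_assoc]
  constructor
  · intro h j J
    have h1 := h J
    rw [key] at h1
    exact eq_zero_of_sum hc h1 j
  · intro h J
    rw [key]
    refine Finset.sum_eq_zero fun j _ => ?_
    rw [h j J, map_zero, mul_zero]

theorem map_mul' (a b : Matrix (Fin n) (Fin n) ℚ) :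
    (a * b).map (algebraMap ℚ ℂ) = a.map (algebraMap ℚ ℂ) * b.map (algebraMap ℚ ℂ) :=
  Matrix.map_mul

include hc in
theorem comm_iff (P : Matrix (Fin n) (Fin n) ℚ) :
    (∑ j, c j • (x j).map (algebraMap ℚ ℂ)) * P.map (algebraMap ℚ ℂ) =
      P.map (algebraMap ℚ ℂ) * (∑ j, c j • (x j).map (algebraMap ℚ ℂ)) ↔
        ∀ j, x j * P = P * x j := by
  have h1 : (∑ j, c j • (x j).map (algebraMap ℚ ℂ)) * P.map (algebraMap ℚ ℂ) =
      ∑ j, c j • (x j * P).map (algebraMap ℚ ℂ) := by
    rw [Finset.sum_mul]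
    refine Finset.sum_congr rfl fun j _ => ?_
    rw [map_mul', smul_mul_assoc]
  have h2 : P.map (algebraMap ℚ ℂ) * (∑ j, c j • (x j).map (algebraMap ℚ ℂ)) =
      ∑ j, c j • (P * x j).map (algebraMap ℚ ℂ) := by
    rw [Finset.mul_sum]
    refine Finset.sum_congr rfl fun j _ => ?_
    rw [map_mul', mul_smul_comm]
  rw [h1, h2]
  constructor
  · intro h j
    ext a b
    have h3 := congrArg (fun m : Matrix (Fin n) (Fin n) ℂ => m a b) h
    simp only [Matrix.sum_apply, Matrix.smul_apply, Matrix.map_apply, smul_eq_mul] at h3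
    have h4 : ∑ l, c l * algebraMap ℚ ℂ ((x l * P) a b - (P * x l) a b) = 0 := by
      simp only [map_sub, mul_sub, Finset.sum_sub_distrib]
      rw [h3, sub_self]
    exact sub_eq_zero.1 (eq_zero_of_sum hc h4 j)
  · intro h
    refine Finset.sum_congr rfl fun j _ => ?_
    rw [h j]

theorem trace_sum (P : Matrix (Fin n) (Fin n) ℚ) :
    ((∑ j, c j • (x j).map (algebraMap ℚ ℂ)) * P.map (algebraMap ℚ ℂ)).trace =
      ∑ j, c j * algebraMap ℚ ℂ ((x j * P).trace) := by
  rw [Finset.sum_mul, Matrix.trace_sum]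
  refine Finset.sum_congr rfl fun j _ => ?_
  rw [smul_mul_assoc, Matrix.trace_smul, smul_eq_mul, ← map_mul']
  congr 1
  unfold Matrix.trace
  rw [map_sum]
  rfl

end Pool.Agent.Q50.HL
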