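import Mathlib

/-!
# Families of polarised Hodge structures and Hodge tensors: definitions
-/

open Matrix

namespace Pool.Agent.Q50.HL

/-- A continuous family of polarised rational Hodge structures of weight `w` on the vector space
`V = ℚ^n`, with parameters in a topological space `S`. For `p` in `types`, the matrix `e s p` is the
projector of `V ⊗ ℂ` onto `V_s^{p, w - p}`, and the polarisation is `Q`. In the intended use `S` is
the universal cover of a smooth complex variety and the family is the pull-back of a polarised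
variation of Hodge structure, with a flat basis. -/
structure HodgeFamily (S : Type) [TopologicalSpace S] (n : ℕ) where
  /-- the weight -/
  w : ℤ
  /-- the set of the `p` such that the type `(p, w - p)` is allowed -/
  types : Finset ℤ
  /-- the projectors of the Hodge decompositions -/
  e : S → ℤ → Matrix (Fin n) (Fin n) ℂ
  /-- the polarisation -/
  Q : Matrix (Fin n) (Fin n) ℚ
  continuous : ∀ p ∈ types, Continuous fun s => e s p
  mul : ∀ s, ∀ p ∈ types, ∀ q ∈ types, e s p * e s q = if p = q then e s p else 0
  sum : ∀ s, ∑ p ∈ types, e s p = 1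
  conj_mem : ∀ p ∈ types, w - p ∈ types
  conj : ∀ s, ∀ p ∈ types, (e s p).map (starRingEnd ℂ) = e s (w - p)
  symm : Qᵀ = (-1 : ℚ) ^ w • Q
  orth : ∀ s, ∀ p ∈ types,
    (e s p)ᵀ * Q.map (algebraMap ℚ ℂ) = Q.map (algebraMap ℚ ℂ) * e s (w - p)
  pos : ∀ s, ∀ p ∈ types, ∀ x : Fin n → ℂ, e s p *ᵥ x = x → x ≠ 0 → ∃ r : ℝ, 0 < r ∧
    Complex.I ^ (2 * p - w) * (x ⬝ᵥ Q.map (algebraMap ℚ ℂ) *ᵥ star x) = r

variable {S : Type} [TopologicalSpace S] {n : ℕ} (A : HodgeFamily S n)

/-- The operator which is the multiplication by `p - q` on `V_s^{p, q}`. -/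
def HodgeFamily.H (s : S) : Matrix (Fin n) (Fin n) ℂ :=
  ∑ p ∈ A.types, ((2 * p - A.w : ℤ) : ℂ) • A.e s p

/-- The matrix `M` kills the `m`-linear form with the coefficients `f`: the sum of the forms
`(v 1, ..., v m) ↦ f (v 1, ..., M (v i), ..., v m)` is zero. -/
def KillsForm {m n : ℕ} (M : Matrix (Fin n) (Fin n) ℂ) (f : (Fin m → Fin n) → ℚ) : Prop :=
  ∀ J : Fin m → Fin n, ∑ i, ∑ a, M a (J i) * f (Function.update J i a) = 0

/-- The `m`-linear form on `V` with the rational coefficients `f` is a Hodge class for the Hodge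
structure at `s`: it is of type `(c, c)` for some `c`, that is, it is killed by the operator `p - q`.
By the polarisation, these are the Hodge classes in all tensor spaces `V^{⊗ a} ⊗ (V^∨)^{⊗ b}` with
`a + b = m`, up to Tate twists. -/
def HodgeFamily.IsHodge (s : S) {m : ℕ} (f : (Fin m → Fin n) → ℚ) : Prop :=
  KillsForm (A.H s) f

/-- The points at which all tensors of degree `m` are Hodge classes which are Hodge classes at
`s`. -/
def HodgeFamily.locus (s : S) (m : ℕ) : Set S :=
  {s' | ∀ f : (Fin m → Fin n) → ℚ, A.IsHodge s f → A.IsHodge s' f}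

/-- The Hodge locus for the tensors of degree `m`: the points at which there is a Hodge class of
degree `m` which is not a Hodge class everywhere. -/
def HodgeFamily.hodgeLocus (m : ℕ) : Set S :=
  {s | ∃ f : (Fin m → Fin n) → ℚ, A.IsHodge s f ∧ ∃ s', ¬A.IsHodge s' f}

end Pool.Agent.Q50.HL
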