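import Pool.Agent.Q50.HL.Alg

/-!
# Hodge classes of degree two and four
-/

set_option maxHeartbeats 4000000
set_option synthInstance.maxHeartbeats 400000

open Matrix

namespace Pool.Agent.Q50.HL

variable {S : Type} [TopologicalSpace S] {n : ℕ} (A : HodgeFamily S n)

/-- the complex matrix of the polarisation -/
noncomputable abbrev HodgeFamily.QC : Matrix (Fin n) (Fin n) ℂ := A.Q.map (algebraMap ℚ ℂ)

theorem hodge_iff {s : S} {m : ℕ} (f : (Fin m → Fin n) → ℚ) : A.IsHodge s f ↔ KC (A.H s) f :=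
  Iff.rfl

theorem H_skew (s : S) : (A.H s)ᵀ * A.QC + A.QC * A.H s = 0 := by
  have h1 : (A.H s)ᵀ * A.QC = ∑ p ∈ A.types, ((2 * p - A.w : ℤ) : ℂ) • (A.QC * A.e s (A.w - p)) := by
    unfold HodgeFamily.H
    rw [Matrix.transpose_sum, Finset.sum_mul]
    refine Finset.sum_congr rfl fun p hp => ?_
    rw [Matrix.transpose_smul, smul_mul_assoc, A.orth s p hp]
  have h2 : A.QC * A.H s = ∑ p ∈ A.types, ((2 * p - A.w : ℤ) : ℂ) • (A.QC * A.e s p) := by
    unfold HodgeFamily.H
    rw [Finset.mul_sum]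
    refine Finset.sum_congr rfl fun p _ => ?_
    rw [mul_smul_comm]
  have h3 : ∑ p ∈ A.types, ((2 * p - A.w : ℤ) : ℂ) • (A.QC * A.e s p) =
      ∑ p ∈ A.types, ((2 * (A.w - p) - A.w : ℤ) : ℂ) • (A.QC * A.e s (A.w - p)) := by
    refine Finset.sum_nbij' (fun p => A.w - p) (fun p => A.w - p) A.conj_mem A.conj_mem ?_ ?_ ?_
    · intro p _
      ring
    · intro p _
      ring
    · intro p _
      have h4 : A.w - (A.w - p) = p := by ring
      rw [h4]
  rw [h1, h2, h3, ← Finset.sum_add_distrib]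
  refine Finset.sum_eq_zero fun p _ => ?_
  rw [← add_smul]
  have h5 : ((2 * p - A.w : ℤ) : ℂ) + ((2 * (A.w - p) - A.w : ℤ) : ℂ) = 0 := by
    push_cast
    ring
  rw [h5, zero_smul]

theorem aeval_H (s : S) (f : Polynomial ℂ) :
    Polynomial.aeval (A.H s) f =
      ∑ p ∈ A.types, f.eval ((2 * p - A.w : ℤ) : ℂ) • A.e s p := by
  induction f using Polynomial.induction_on with
  | C a =>
    rw [Polynomial.aeval_C, Algebra.algebraMap_eq_smul_one, ← A.sum s, Finset.smul_sum]
    refine Finset.sum_congr rfl fun p _ => ?_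
    rw [Polynomial.eval_C]
  | add f g hf hg =>
    rw [map_add, hf, hg, ← Finset.sum_add_distrib]
    refine Finset.sum_congr rfl fun p _ => ?_
    rw [Polynomial.eval_add, add_smul]
  | monomial m a h =>
    have h1 : Polynomial.aeval (A.H s) (Polynomial.C a * Polynomial.X ^ (m + 1)) =
        Polynomial.aeval (A.H s) (Polynomial.C a * Polynomial.X ^ m) * A.H s := by
      rw [pow_succ, ← mul_assoc, map_mul, Polynomial.aeval_X]
    rw [h1, h, Finset.sum_mul]
    refine Finset.sum_congr rfl fun p hp => ?_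
    have h2 : A.e s p * A.H s = ((2 * p - A.w : ℤ) : ℂ) • A.e s p := by
      unfold HodgeFamily.H
      rw [Finset.mul_sum, Finset.sum_eq_single p]
      · rw [mul_smul_comm, A.mul s p hp p hp, if_pos rfl]
      · intro q hq hqp
        rw [mul_smul_comm, A.mul s p hp q hq, if_neg (Ne.symm hqp), smul_zero]
      · intro h
        exact absurd hp h
    rw [smul_mul_assoc, h2, smul_smul]
    congr 1
    simp only [Polynomial.eval_mul, Polynomial.eval_C, Polynomial.eval_pow, Polynomial.eval_X]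
    ring

theorem e_eq (s : S) {p : ℤ} (hp : p ∈ A.types) : ∃ f : Polynomial ℂ,
    A.e s p = Polynomial.aeval (A.H s) f := by
  refine ⟨Lagrange.basis A.types (fun p => ((2 * p - A.w : ℤ) : ℂ)) p, ?_⟩
  have hinj : Set.InjOn (fun p : ℤ => ((2 * p - A.w : ℤ) : ℂ)) A.types := by
    intro a _ b _ hab
    have h1 : (2 * a - A.w : ℤ) = 2 * b - A.w := Int.cast_injective (α := ℂ) hab
    linarith
  rw [aeval_H, Finset.sum_eq_single p]
  · rw [Lagrange.eval_basis_self hinj hp, one_smul]
  · intro q hq hqp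
    have h1 := Lagrange.eval_basis_of_ne (s := A.types)
      (v := fun p : ℤ => ((2 * p - A.w : ℤ) : ℂ)) (Ne.symm hqp) hq
    rw [h1, zero_smul]
  · intro h
    exact absurd hp h

theorem aeval_comm' {M E : Matrix (Fin n) (Fin n) ℂ} (h : M * E = E * M) (f : Polynomial ℂ) :
    Polynomial.aeval M f * E = E * Polynomial.aeval M f := by
  induction f using Polynomial.induction_on with
  | C a =>
    rw [Polynomial.aeval_C]
    exact Algebra.commutes a E
  | add f g hf hg => rw [map_add, add_mul, mul_add, hf, hg]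
  | monomial m a hm =>
    have h1 : Polynomial.aeval M (Polynomial.C a * Polynomial.X ^ (m + 1)) =
        Polynomial.aeval M (Polynomial.C a * Polynomial.X ^ m) * M := by
      rw [pow_succ, ← mul_assoc, map_mul, Polynomial.aeval_X]
    rw [h1, mul_assoc, h, ← mul_assoc, hm, mul_assoc]

/-- matrices which commute with `H` commute with the projectors -/
theorem e_comm (s : S) {p : ℤ} (hp : p ∈ A.types) {E : Matrix (Fin n) (Fin n) ℂ}
    (hE : A.H s * E = E * A.H s) : A.e s p * E = E * A.e s p := by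
  obtain ⟨f, hf⟩ := e_eq A s hp
  rw [hf]
  exact aeval_comm' hE f

/-- a subspace which is stable under `H` is stable under the projectors -/
theorem e_stable (s : S) {p : ℤ} (hp : p ∈ A.types) {T : Submodule ℂ (Fin n → ℂ)}
    (hT : ∀ t ∈ T, A.H s *ᵥ t ∈ T) : ∀ t ∈ T, A.e s p *ᵥ t ∈ T := by
  obtain ⟨f, hf⟩ := e_eq A s hp
  rw [hf]
  clear hf
  induction f using Polynomial.induction_on with
  | C a =>
    intro t ht
    rw [Polynomial.aeval_C, Algebra.algebraMap_eq_smul_one, Matrix.smul_mulVec, Matrix.one_mulVec]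
    exact T.smul_mem a ht
  | add f g hf hg =>
    intro t ht
    rw [map_add, Matrix.add_mulVec]
    exact T.add_mem (hf t ht) (hg t ht)
  | monomial m a hm =>
    intro t ht
    have h1 : Polynomial.aeval (A.H s) (Polynomial.C a * Polynomial.X ^ (m + 1)) =
        Polynomial.aeval (A.H s) (Polynomial.C a * Polynomial.X ^ m) * A.H s := by
      rw [pow_succ, ← mul_assoc, map_mul, Polynomial.aeval_X]
    rw [h1, ← Matrix.mulVec_mulVec]
    exact hm _ (hT t ht)

theorem sum_e (s : S) (x : Fin n → ℂ) : x = ∑ p ∈ A.types, A.e s p *ᵥ x := by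
  rw [← Matrix.sum_mulVec, A.sum, Matrix.one_mulVec]

/-- `(e_p x)ᵀ Q conj (e_p y) = xᵀ Q e_{w - p} conj y` -/
theorem form_e (s : S) {p : ℤ} (hp : p ∈ A.types) (x : Fin n → ℂ) :
    (A.e s p *ᵥ x) ⬝ᵥ A.QC *ᵥ star (A.e s p *ᵥ x) =
      x ⬝ᵥ A.QC *ᵥ (A.e s (A.w - p) *ᵥ star x) := by
  have h1 : star (A.e s p *ᵥ x) = A.e s (A.w - p) *ᵥ star x := by
    rw [← A.conj s p hp]
    funext i
    simp only [Pi.star_apply, Matrix.mulVec, dotProduct, Matrix.map_apply]
    rw [star_sum]
    refine Finset.sum_congr rfl fun j _ => ?_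
    rw [star_mul']
    rfl
  have h2 : ∀ (M : Matrix (Fin n) (Fin n) ℂ) (y z : Fin n → ℂ),
      (M *ᵥ y) ⬝ᵥ z = y ⬝ᵥ Mᵀ *ᵥ z := by
    intro M y z
    rw [Matrix.dotProduct_mulVec, Matrix.vecMul_transpose]
  have h3 : A.e s (A.w - p) * A.e s (A.w - p) = A.e s (A.w - p) := by
    rw [A.mul s _ (A.conj_mem p hp) _ (A.conj_mem p hp), if_pos rfl]
  have h4 : (A.e s p)ᵀ * A.QC * A.e s (A.w - p) = A.QC * A.e s (A.w - p) := by
    rw [A.orth s p hp, mul_assoc, h3]
  rw [h1, h2, Matrix.mulVec_mulVec, Matrix.mulVec_mulVec, h4, ← Matrix.mulVec_mulVec]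

/-- if `xᵀ Q e_q conj x = 0` for all `q` then `x = 0` -/
theorem eq_zero_of_form (s : S) (x : Fin n → ℂ)
    (h : ∀ p ∈ A.types, x ⬝ᵥ A.QC *ᵥ (A.e s p *ᵥ star x) = 0) : x = 0 := by
  rw [sum_e A s x]
  refine Finset.sum_eq_zero fun p hp => ?_
  by_contra hne
  have h1 : A.e s p *ᵥ (A.e s p *ᵥ x) = A.e s p *ᵥ x := by
    rw [Matrix.mulVec_mulVec, A.mul s p hp p hp, if_pos rfl]
  obtain ⟨r, hr, hr'⟩ := A.pos s p hp _ h1 hne
  have h2 := form_e A s hp x
  rw [h _ (A.conj_mem p hp)] at h2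
  rw [h2, mul_zero] at hr'
  exact hr.ne (Complex.ofReal_injective (by rw [← hr']; rfl))

/-- the polarisation is nondegenerate -/
theorem QC_inj (s : S) {x : Fin n → ℂ} (h : ∀ y, x ⬝ᵥ A.QC *ᵥ y = 0) : x = 0 :=
  eq_zero_of_form A s x fun _ _ => h _

theorem Q_unit (s : S) : IsUnit A.QC := by
  rw [← Matrix.vecMul_injective_iff_isUnit]
  intro x y hxy
  have hxy' : x ᵥ* A.QC = y ᵥ* A.QC := hxy
  have h1 : x - y = 0 := by
    refine QC_inj A s fun z => ?_
    rw [Matrix.dotProduct_mulVec, Matrix.sub_vecMul, hxy', sub_self, zero_dotProduct]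
  exact sub_eq_zero.1 h1

/-! ### Products -/

section prd

variable {κ κ' : Type} [Fintype κ] [DecidableEq κ] [Fintype κ'] [DecidableEq κ']

/-- the product of two forms -/
def prd (f : (κ → Fin n) → ℚ) (g : (κ' → Fin n) → ℚ) (J : κ ⊕ κ' → Fin n) : ℚ :=
  f (J ∘ Sum.inl) * g (J ∘ Sum.inr)

theorem kc_prd {M : Matrix (Fin n) (Fin n) ℂ} (f : (κ → Fin n) → ℚ) {g : (κ' → Fin n) → ℚ}
    (hg : KC M g) (J : κ → Fin n) (J' : κ' → Fin n) :
    ∑ i, ∑ a, M a (Sum.elim J J' i) * (prd f g (Function.update (Sum.elim J J') i a) : ℂ) =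
      (∑ i, ∑ a, M a (J i) * (f (Function.update J i a) : ℂ)) * g J' := by
  have h1 : ∀ i a, Function.update (Sum.elim J J') (Sum.inl i) a ∘ Sum.inl =
      Function.update J i a := by
    intro i a
    funext l
    rw [Function.comp_apply]
    by_cases h : l = i
    · subst h
      rw [Function.update_self, Function.update_self]
    · rw [Function.update_of_ne h, Function.update_of_ne (Sum.inl_injective.ne h), Sum.elim_inl]
  have h2 : ∀ i a, Function.update (Sum.elim J J') (Sum.inl i) a ∘ Sum.inr = J' := by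
    intro i a
    funext l
    rw [Function.comp_apply, Function.update_of_ne Sum.inr_ne_inl, Sum.elim_inr]
  have h3 : ∀ i a, Function.update (Sum.elim J J') (Sum.inr i) a ∘ Sum.inr =
      Function.update J' i a := by
    intro i a
    funext l
    rw [Function.comp_apply]
    by_cases h : l = i
    · subst h
      rw [Function.update_self, Function.update_self]
    · rw [Function.update_of_ne h, Function.update_of_ne (Sum.inr_injective.ne h), Sum.elim_inr]
  have h4 : ∀ i a, Function.update (Sum.elim J J') (Sum.inr i) a ∘ Sum.inl = J := by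
    intro i a
    funext l
    rw [Function.comp_apply, Function.update_of_ne Sum.inl_ne_inr, Sum.elim_inl]
  rw [Fintype.sum_sum_type]
  have h5 : ∑ i : κ', ∑ a, M a (Sum.elim J J' (Sum.inr i)) *
      (prd f g (Function.update (Sum.elim J J') (Sum.inr i) a) : ℂ) = 0 := by
    have h6 := hg J'
    have h7 : ∑ i : κ', ∑ a, M a (Sum.elim J J' (Sum.inr i)) *
        (prd f g (Function.update (Sum.elim J J') (Sum.inr i) a) : ℂ) =
        (f J : ℂ) * ∑ i, ∑ a, M a (J' i) * (g (Function.update J' i a) : ℂ) := by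
      rw [Finset.mul_sum]
      refine Finset.sum_congr rfl fun i _ => ?_
      rw [Finset.mul_sum]
      refine Finset.sum_congr rfl fun a _ => ?_
      unfold prd
      rw [h3, h4, Sum.elim_inr]
      push_cast
      ring
    rw [h7, h6, mul_zero]
  rw [h5, add_zero, Finset.sum_mul]
  refine Finset.sum_congr rfl fun i _ => ?_
  rw [Finset.sum_mul]
  refine Finset.sum_congr rfl fun a _ => ?_
  unfold prd
  rw [h1, h2, Sum.elim_inl]
  push_cast
  ring

theorem kc_prd_iff {M : Matrix (Fin n) (Fin n) ℂ} (f : (κ → Fin n) → ℚ) {g : (κ' → Fin n) → ℚ}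
    (hg : KC M g) {J' : κ' → Fin n} (hJ' : g J' ≠ 0) : KC M (prd f g) ↔ KC M f := by
  constructor
  · intro h J
    have h1 := h (Sum.elim J J')
    rw [kc_prd f hg] at h1
    rcases mul_eq_zero.1 h1 with h2 | h2
    · exact h2
    · exact absurd (by exact_mod_cast h2) hJ'
  · intro h J
    have h1 := kc_prd f hg (J ∘ Sum.inl) (J ∘ Sum.inr)
    rw [Sum.elim_comp_inl_inr] at h1
    rw [h1, h (J ∘ Sum.inl), zero_mul]

/-- reindexing -/
theorem kc_reindex (σ : κ ≃ κ') {M : Matrix (Fin n) (Fin n) ℂ} (f : (κ → Fin n) → ℚ) :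
    KC M (fun J : κ' → Fin n => f (J ∘ σ)) ↔ KC M f := by
  have h1 : ∀ J : κ' → Fin n, ∑ i, ∑ a, M a (J i) *
      (f (Function.update J i a ∘ σ) : ℂ) =
      ∑ i, ∑ a, M a ((J ∘ σ) i) * (f (Function.update (J ∘ σ) i a) : ℂ) := by
    intro J
    rw [← Equiv.sum_comp σ]
    refine Finset.sum_congr rfl fun i _ => Finset.sum_congr rfl fun a _ => ?_
    rw [Function.comp_apply]
    congr 3
    funext l
    by_cases h : l = i
    · subst h
      simp
    · rw [Function.comp_apply, Function.update_of_ne h, Function.update_of_ne (σ.injective.ne h)]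
      rfl
  constructor
  · intro h J
    have h2 := h (J ∘ σ.symm)
    rw [h1] at h2
    have h3 : (J ∘ σ.symm) ∘ σ = J := by
      funext i
      simp
    rw [h3] at h2
    exact h2
  · intro h J
    have h2 := h (J ∘ σ)
    rw [← h1] at h2
    exact h2

end prd

end Pool.Agent.Q50.HL
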