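import Pool.Agent.Q50.HL.Ss

/-!
# Hodge classes of degree four decide, up to traces
-/

set_option maxHeartbeats 4000000
set_option synthInstance.maxHeartbeats 400000

open Matrix Pool.Agent.H204R3.SP Pool.Agent.W516.KC

namespace Pool.Agent.Q50.HL

variable {S : Type} [TopologicalSpace S] {n : ℕ} (A : HodgeFamily S n)

/-- all Hodge classes of degree four at `s` are Hodge classes at `s'` -/
def Four (s s' : S) : Prop := ∀ f : (Fin 4 → Fin n) → ℚ, A.IsHodge s f → A.IsHodge s' f

variable {A} {s s' : S} (h4 : Four A s s')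

include h4 in
theorem hodge4 {κ : Type} [Fintype κ] [DecidableEq κ] (σ : κ ≃ Fin 4) {f : (κ → Fin n) → ℚ}
    (hf : KC (A.H s) f) : KC (A.H s') f := by
  rw [← kc_reindex σ] at hf ⊢
  have h1 := h4 (fun J => f (J ∘ σ))
  rw [hodge_iff, hodge_iff] at h1
  exact h1 hf

include h4 in
theorem hodge2 {f : (Fin 2 → Fin n) → ℚ} (hf : KC (A.H s) f) : KC (A.H s') f := by
  by_cases hQ : ∃ J' : Fin 2 → Fin n, fP A.Q J' ≠ 0
  · obtain ⟨J', hJ'⟩ := hQ
    rw [← kc_prd_iff f (hodge_Q A s') hJ']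
    refine hodge4 h4 (finSumFinEquiv : Fin 2 ⊕ Fin 2 ≃ Fin 4) ?_
    rw [kc_prd_iff f (hodge_Q A s) hJ']
    exact hf
  · push Not at hQ
    have h1 : A.Q = 0 := by
      ext i j
      exact hQ ![i, j]
    have h2 := Q_unit' A s
    rw [h1, isUnit_zero_iff] at h2
    have h3 : A.H s' = 0 := by
      have h5 : (0 : Matrix (Fin n) (Fin n) ℂ) = 1 := by
        have h6 := congrArg (fun M : Matrix (Fin n) (Fin n) ℚ => M.map (algebraMap ℚ ℂ)) h2
        simp only [Matrix.map_zero _ (map_zero _), Matrix.map_one _ (map_zero _) (map_one _)] at h6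
        exact h6
      rw [← mul_one (A.H s'), ← h5, mul_zero]
    intro J
    rw [h3]
    simp

theorem kc_comm (s : S) (P : Matrix (Fin n) (Fin n) ℚ) : KC (A.H s) (fP (Pᵀ * A.Q)) ↔
    A.H s * P.map (algebraMap ℚ ℂ) = P.map (algebraMap ℚ ℂ) * A.H s := by
  rw [kc_fP]
  have h1 : (Pᵀ * A.Q).map (algebraMap ℚ ℂ) = (P.map (algebraMap ℚ ℂ))ᵀ * A.QC := by
    rw [map_mul', Matrix.transpose_map]
  rw [h1]
  have h2 := H_skew A s
  have h3 : (A.H s)ᵀ * ((P.map (algebraMap ℚ ℂ))ᵀ * A.QC) +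
      (P.map (algebraMap ℚ ℂ))ᵀ * A.QC * A.H s =
      (P.map (algebraMap ℚ ℂ) * A.H s - A.H s * P.map (algebraMap ℚ ℂ))ᵀ * A.QC := by
    have h5 : (P.map (algebraMap ℚ ℂ))ᵀ * ((A.H s)ᵀ * A.QC + A.QC * A.H s) = 0 := by
      rw [h2, mul_zero]
    rw [mul_add] at h5
    rw [Matrix.transpose_sub, Matrix.transpose_mul, Matrix.transpose_mul, sub_mul, mul_assoc,
      mul_assoc, mul_assoc, eq_sub_iff_add_eq, add_assoc, add_comm (_ * (A.QC * _)), h5, add_zero]
  rw [h3]
  constructor
  · intro h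
    have h5 : (P.map (algebraMap ℚ ℂ) * A.H s - A.H s * P.map (algebraMap ℚ ℂ))ᵀ = 0 := by
      obtain ⟨u, hu⟩ := Q_unit A s
      have h6 := congrArg (fun M => M * (↑u⁻¹ : Matrix (Fin n) (Fin n) ℂ)) h
      simp only [← hu, mul_assoc, Units.mul_inv, mul_one, zero_mul] at h6
      exact h6
    have h6 := congrArg Matrix.transpose h5
    rw [Matrix.transpose_transpose, Matrix.transpose_zero, sub_eq_zero] at h6
    exact h6.symm
  · intro h
    rw [h, sub_self, Matrix.transpose_zero, zero_mul]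

/-- an endomorphism which commutes with the Lie algebra commutes with `H` -/
theorem comm_of_mt (s : S) {P : Module.End ℚ (Fin n → ℚ)} (hP : ∀ X ∈ mt A s, X * P = P * X) :
    A.H s * (LinearMap.toMatrix' P).map (algebraMap ℚ ℂ) =
      (LinearMap.toMatrix' P).map (algebraMap ℚ ℂ) * A.H s := by
  obtain ⟨N, c, x, _, hc, hx, _⟩ := exists_coord (A.H s) (A.H s)
  rw [hx, comm_iff hc]
  intro j
  have h1 := congrArg LinearMap.toMatrix' (hP _ (mem_of_coord A hc hx j))
  rwa [Module.End.mul_eq_comp, Module.End.mul_eq_comp, LinearMap.toMatrix'_comp,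
    LinearMap.toMatrix'_comp, LinearMap.toMatrix'_toLin'] at h1

include h4 in
theorem comm_of_mt' {P : Module.End ℚ (Fin n → ℚ)} (hP : ∀ X ∈ mt A s, X * P = P * X) :
    A.H s' * (LinearMap.toMatrix' P).map (algebraMap ℚ ℂ) =
      (LinearMap.toMatrix' P).map (algebraMap ℚ ℂ) * A.H s' := by
  rw [← kc_comm]
  refine hodge2 h4 ?_
  rw [kc_comm]
  exact comm_of_mt s hP

theorem trace_eq (x : Module.End ℚ (Fin n → ℚ)) :
    LinearMap.trace ℚ (Fin n → ℚ) x = (LinearMap.toMatrix' x).trace := by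
  rw [← Matrix.trace_toLin'_eq, Matrix.toLin'_toMatrix']

include h4 in
/-- **Hodge classes of degree four decide, up to traces.** -/
theorem of_four (htr : ∀ e, Pool.Agent.Q50.FP.InCentre (mt A s) e →
      (A.H s' * (LinearMap.toMatrix' e).map (algebraMap ℚ ℂ)).trace =
        (A.H s * (LinearMap.toMatrix' e).map (algebraMap ℚ ℂ)).trace)
    {m : ℕ} {f : (Fin m → Fin n) → ℚ} (hf : A.IsHodge s f) : A.IsHodge s' f := by
  obtain ⟨N, c, x, y, hc, hx, hy⟩ := exists_coord (A.H s) (A.H s')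
  rw [hodge_iff, hy, kc_iff hc]
  intro j
  have key : Matrix.toLin' (y j) ∈ mt A s := by
    refine Pool.Agent.Q50.FP.core (mt A s) (mt_semi A s) (mt_bracket A s) (om A) (om_nondeg A s)
      ?_ ?_ ?_ (mem_of_coord A hc hx j) ?_
    · rw [skew_iff, LinearMap.toMatrix'_toLin', ← kq_fP]
      have h1 := hodge_Q A s'
      rw [hodge_iff, hy, kc_iff hc] at h1
      exact h1 j
    · rw [kills_iff, LinearMap.toMatrix'_toLin']
      have h1 : KC (A.H s) (casF A s) := by
        rw [hx, kc_iff hc]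
        intro l
        have h2 := kills_casF A s (mem_of_coord A hc hx l)
        rwa [LinearMap.toMatrix'_toLin'] at h2
      have h2 := hodge4 h4 (finProdFinEquiv : Fin 2 × Fin 2 ≃ Fin 4) h1
      rw [hy, kc_iff hc] at h2
      exact h2 j
    · intro P hP
      have h1 := comm_of_mt' h4 hP
      rw [hy, comm_iff hc] at h1
      have h2 := h1 j
      apply LinearMap.toMatrix'.injective
      rw [Module.End.mul_eq_comp, Module.End.mul_eq_comp, LinearMap.toMatrix'_comp,
        LinearMap.toMatrix'_comp, LinearMap.toMatrix'_toLin']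
      exact h2
    · intro e he
      have h1 := htr e he
      rw [hx, hy, trace_sum, trace_sum, ← sub_eq_zero, ← Finset.sum_sub_distrib] at h1
      have h2 : ∑ l, c l * algebraMap ℚ ℂ ((y l * LinearMap.toMatrix' e).trace -
          (x l * LinearMap.toMatrix' e).trace) = 0 := by
        rw [← h1]
        refine Finset.sum_congr rfl fun l _ => ?_
        rw [map_sub, mul_sub]
      have h3 := eq_zero_of_sum hc h2 j
      rw [trace_eq, trace_eq, Module.End.mul_eq_comp, Module.End.mul_eq_comp,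
        LinearMap.toMatrix'_comp, LinearMap.toMatrix'_comp, LinearMap.toMatrix'_toLin',
        LinearMap.toMatrix'_toLin']
      exact sub_eq_zero.1 h3
  have h1 := (mem_mt A).1 key m f hf
  rwa [LinearMap.toMatrix'_toLin'] at h1

end Pool.Agent.Q50.HL
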