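import Pool.Agent.Q50.HL.Four

/-!
# Hodge classes of degree four decide along connected sets
-/

set_option maxHeartbeats 4000000
set_option synthInstance.maxHeartbeats 400000

open Matrix Pool.Agent.H204R3.SP Pool.Agent.W516.KC

namespace Pool.Agent.Q50.HL

/-- the possible traces of the product of `E` with a commuting idempotent -/
noncomputable def trSet {n : ℕ} (E : Matrix (Fin n) (Fin n) ℂ) : Set ℂ :=
  Set.range fun g : Fin n → ((insert 0 E.charpoly.roots.toFinset : Finset ℂ) : Set ℂ) =>
    ∑ i, (g i : ℂ)

theorem trSet_finite {n : ℕ} (E : Matrix (Fin n) (Fin n) ℂ) : (trSet E).Finite := by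
  unfold trSet
  exact Set.finite_range _

theorem trace_mem_trSet {n : ℕ} {e E : Matrix (Fin n) (Fin n) ℂ} (he : e * e = e)
    (hE : e * E = E * e) : (e * E).trace ∈ trSet E := by
  have h1 : ∀ μ ∈ (e * E).charpoly.roots, μ ∈ (insert 0 E.charpoly.roots.toFinset : Finset ℂ) := by
    intro μ hμ
    rw [Finset.mem_insert]
    by_cases h0 : μ = 0
    · exact Or.inl h0
    · refine Or.inr ?_
      rw [Multiset.mem_toFinset, Polynomial.mem_roots (E.charpoly_monic.ne_zero)]
      have h2 := Polynomial.isRoot_of_mem_roots hμ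
      rw [← Matrix.mem_spectrum_iff_isRoot_charpoly, ← Matrix.spectrum_toLin',
        ← Module.End.hasEigenvalue_iff_mem_spectrum] at h2 ⊢
      obtain ⟨v, hv⟩ := h2.exists_hasEigenvector
      have h3 : (e * E) *ᵥ v = μ • v := by
        have h4 := hv.apply_eq_smul
        rwa [Matrix.toLin'_apply] at h4
      have h5 : e *ᵥ v = v := by
        have h6 : e *ᵥ (μ • v) = μ • v := by
          rw [← h3, Matrix.mulVec_mulVec, ← mul_assoc, he]
        rw [Matrix.mulVec_smul] at h6
        exact smul_right_injective _ h0 h6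
      have h6 : E *ᵥ v = μ • v := by
        rw [← h3, hE, ← Matrix.mulVec_mulVec, h5]
      refine Module.End.hasEigenvalue_of_hasEigenvector (x := v) ?_
      rw [Module.End.hasEigenvector_iff, Module.End.mem_eigenspace_iff, Matrix.toLin'_apply]
      exact ⟨h6, hv.2⟩
  have h2 : (e * E).charpoly.roots.card = n := by
    rw [IsAlgClosed.card_roots_eq_natDegree, Matrix.charpoly_natDegree_eq_dim, Fintype.card_fin]
  rw [Matrix.trace_eq_sum_roots_charpoly]
  generalize (e * E).charpoly.roots = r at h1 h2
  obtain ⟨l, rfl⟩ := Quot.exists_rep r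
  have h3 : l.length = n := h2
  refine ⟨fun i => ⟨l.get (i.cast h3.symm), h1 _ (List.get_mem l _)⟩, ?_⟩
  change ∑ i : Fin n, l.get (i.cast h3.symm) = (l : Multiset ℂ).sum
  rw [Multiset.sum_coe]
  subst h3
  conv_rhs => rw [← List.ofFn_get l, List.sum_ofFn]
  rfl

variable {S : Type} [TopologicalSpace S] {n : ℕ} (A : HodgeFamily S n)

theorem mem_locus_self (s : S) (m : ℕ) : s ∈ A.locus s m := fun _ h => h

/-- the traces are constant on connected sets -/
theorem trace_const {s s' : S} (h : s' ∈ connectedComponentIn (A.locus s 4) s)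
    {e : Module.End ℚ (Fin n → ℚ)} (he : ∀ X ∈ mt A s, X * e = e * X) :
    (A.H s' * (LinearMap.toMatrix' e).map (algebraMap ℚ ℂ)).trace =
      (A.H s * (LinearMap.toMatrix' e).map (algebraMap ℚ ℂ)).trace := by
  let E : Matrix (Fin n) (Fin n) ℂ := (LinearMap.toMatrix' e).map (algebraMap ℚ ℂ)
  change (A.H s' * E).trace = (A.H s * E).trace
  have hconn : IsPreconnected (connectedComponentIn (A.locus s 4) s) :=
    isPreconnected_connectedComponentIn
  have hs : s ∈ connectedComponentIn (A.locus s 4) s :=
    mem_connectedComponentIn (mem_locus_self A s 4)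
  have hcomm : ∀ t ∈ connectedComponentIn (A.locus s 4) s, A.H t * E = E * A.H t := by
    intro t ht
    have h4 : Four A s t := connectedComponentIn_subset _ _ ht
    exact comm_of_mt' h4 he
  have key : ∀ p ∈ A.types, (A.e s' p * E).trace = (A.e s p * E).trace := by
    intro p hp
    refine hconn.constant_of_mapsTo (trSet_finite E).isDiscrete (f := fun t => (A.e t p * E).trace)
      ?_ ?_ h hs
    · have h1 : Continuous fun t => (A.e t p * E).trace :=
        ((A.continuous p hp).matrix_mul continuous_const).matrix_trace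
      exact h1.continuousOn
    · intro t ht
      refine trace_mem_trSet ?_ (e_comm A t hp (hcomm t ht))
      rw [A.mul t p hp p hp, if_pos rfl]
  unfold HodgeFamily.H
  rw [Finset.sum_mul, Finset.sum_mul, Matrix.trace_sum, Matrix.trace_sum]
  refine Finset.sum_congr rfl fun p hp => ?_
  rw [smul_mul_assoc, smul_mul_assoc, Matrix.trace_smul, Matrix.trace_smul, key p hp]

/-- **Hodge classes stay Hodge classes along the components of the degree-four locus.** -/
theorem mem_of_component {s s' : S} (h : s' ∈ connectedComponentIn (A.locus s 4) s) {m : ℕ} :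
    s' ∈ A.locus s m := by
  intro f hf
  have h4 : Four A s s' := connectedComponentIn_subset _ _ h
  exact of_four h4 (fun e he => trace_const A h he.1) hf

/-- the criterion for two points -/
theorem mem_of_traces {s s' : S} (h4 : s' ∈ A.locus s 4)
    (htr : ∀ E : Matrix (Fin n) (Fin n) ℚ,
      A.H s * E.map (algebraMap ℚ ℂ) = E.map (algebraMap ℚ ℂ) * A.H s →
      (A.H s' * E.map (algebraMap ℚ ℂ)).trace = (A.H s * E.map (algebraMap ℚ ℂ)).trace)
    (m : ℕ) : s' ∈ A.locus s m :=
  fun _ hf => of_four (A := A) (s := s) (s' := s') h4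
    (fun e he => htr (LinearMap.toMatrix' e) (comm_of_mt s he.1)) hf

theorem component_eq (s : S) :
    connectedComponentIn (A.locus s 4) s = connectedComponentIn (⋂ m, A.locus s m) s := by
  refine subset_antisymm ?_ ?_
  · refine isPreconnected_connectedComponentIn.subset_connectedComponentIn
      (mem_connectedComponentIn (mem_locus_self A s 4)) fun t ht => ?_
    rw [Set.mem_iInter]
    exact fun m => mem_of_component A ht
  · exact connectedComponentIn_mono s (Set.iInter_subset _ 4)

theorem hodgeLocus_eq [PreconnectedSpace S] : ⋃ m, A.hodgeLocus m = A.hodgeLocus 4 := by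
  refine subset_antisymm ?_ (Set.subset_iUnion _ 4)
  intro s hs
  rw [Set.mem_iUnion] at hs
  obtain ⟨m, f, hf, s', hs'⟩ := hs
  by_contra hn
  have h1 : A.locus s 4 = Set.univ := by
    rw [Set.eq_univ_iff_forall]
    intro t g hg
    by_contra ht
    exact hn ⟨g, hg, t, ht⟩
  have h2 : s' ∈ connectedComponentIn (A.locus s 4) s := by
    rw [h1, connectedComponentIn_univ, PreconnectedSpace.connectedComponent_eq_univ]
    trivial
  exact hs' (mem_of_component A h2 f hf)

end Pool.Agent.Q50.HL
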