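import Pool.Agent.Q50.HL.Fam

/-!
# The Lie algebra which kills all Hodge classes
-/

set_option maxHeartbeats 4000000
set_option synthInstance.maxHeartbeats 400000

open Matrix Pool.Agent.H204R3.SP Pool.Agent.W516.KC

namespace Pool.Agent.Q50.HL

variable {S : Type} [TopologicalSpace S] {n : ℕ} (A : HodgeFamily S n)

/-- the Lie algebra which kills all Hodge classes -/
noncomputable def mt (s : S) : Submodule ℚ (Module.End ℚ (Fin n → ℚ)) where
  carrier := {x | ∀ (m : ℕ) (f : (Fin m → Fin n) → ℚ), A.IsHodge s f → Kills x (mk f)}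
  zero_mem' := by
    intro m f _ v
    refine Finset.sum_eq_zero fun k _ => ?_
    rw [LinearMap.zero_apply]
    exact (mk f).map_coord_zero k (Function.update_self _ _ _)
  add_mem' := by
    intro X Y hX hY m f hf v
    have h1 := hX m f hf v
    have h2 := hY m f hf v
    have h3 := congrArg₂ (fun x y : ℚ => x + y) h1 h2
    simp only [add_zero] at h3
    rw [← h3, ← Finset.sum_add_distrib]
    refine Finset.sum_congr rfl fun k _ => ?_
    rw [LinearMap.add_apply, MultilinearMap.map_update_add]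
  smul_mem' := by
    intro c X hX m f hf v
    have h1 := hX m f hf v
    rw [← mul_zero c, ← h1, Finset.mul_sum]
    refine Finset.sum_congr rfl fun k _ => ?_
    rw [LinearMap.smul_apply, MultilinearMap.map_update_smul, smul_eq_mul]

theorem mt_bracket (s : S) : ∀ X ∈ mt A s, ∀ Y ∈ mt A s, X * Y - Y * X ∈ mt A s :=
  fun _ hX _ hY m f hf => kills_bracket (hX m f hf) (hY m f hf)

theorem mem_mt {s : S} {x : Module.End ℚ (Fin n → ℚ)} : x ∈ mt A s ↔
    ∀ (m : ℕ) (f : (Fin m → Fin n) → ℚ), A.IsHodge s f → KQ (LinearMap.toMatrix' x) f := by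
  constructor
  · intro h m f hf
    have h1 := (kills_iff x (mk f)).1 (h m f hf)
    rwa [cf_mk] at h1
  · intro h m f hf
    rw [kills_iff, cf_mk]
    exact h m f hf

/-! ### Bilinear forms -/

/-- a matrix as the coefficients of a bilinear form -/
def fP (P : Matrix (Fin n) (Fin n) ℚ) (J : Fin 2 → Fin n) : ℚ := P (J 0) (J 1)

theorem kc_fP (M : Matrix (Fin n) (Fin n) ℂ) (P : Matrix (Fin n) (Fin n) ℚ) :
    KC M (fP P) ↔ Mᵀ * P.map (algebraMap ℚ ℂ) + P.map (algebraMap ℚ ℂ) * M = 0 := by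
  have key : ∀ J : Fin 2 → Fin n, ∑ i, ∑ a, M a (J i) * (fP P (Function.update J i a) : ℂ) =
      (Mᵀ * P.map (algebraMap ℚ ℂ) + P.map (algebraMap ℚ ℂ) * M) (J 0) (J 1) := by
    intro J
    rw [Fin.sum_univ_two, Matrix.add_apply, Matrix.mul_apply, Matrix.mul_apply]
    refine congrArg₂ (· + ·) ?_ ?_
    · refine Finset.sum_congr rfl fun a _ => ?_
      rw [Matrix.transpose_apply, Matrix.map_apply]
      unfold fP
      rw [Function.update_self, Function.update_of_ne (by decide)]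
      rfl
    · refine Finset.sum_congr rfl fun a _ => ?_
      rw [Matrix.map_apply, mul_comm]
      unfold fP
      rw [Function.update_self, Function.update_of_ne (by decide)]
      rfl
  constructor
  · intro h
    ext i j
    have h1 := h ![i, j]
    rw [key] at h1
    exact h1
  · intro h J
    rw [key, h]
    rfl

theorem kq_iff {κ : Type} [Fintype κ] [DecidableEq κ] (x : Matrix (Fin n) (Fin n) ℚ)
    (f : (κ → Fin n) → ℚ) : KQ x f ↔ KC (x.map (algebraMap ℚ ℂ)) f := by
  have key : ∀ J : κ → Fin n, ∑ i, ∑ a, (x.map (algebraMap ℚ ℂ)) a (J i) *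
      (f (Function.update J i a) : ℂ) =
      algebraMap ℚ ℂ (∑ i, ∑ a, x a (J i) * f (Function.update J i a)) := by
    intro J
    rw [map_sum]
    refine Finset.sum_congr rfl fun i _ => ?_
    rw [map_sum]
    refine Finset.sum_congr rfl fun a _ => ?_
    rw [map_mul]
    rfl
  constructor
  · intro h J
    rw [key, h J, map_zero]
  · intro h J
    have h1 := h J
    rw [key] at h1
    exact (map_eq_zero_iff _ (algebraMap ℚ ℂ).injective).1 h1

theorem map_inj {P P' : Matrix (Fin n) (Fin n) ℚ}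
    (h : P.map (algebraMap ℚ ℂ) = P'.map (algebraMap ℚ ℂ)) : P = P' := by
  ext i j
  have h1 := congrArg (fun m : Matrix (Fin n) (Fin n) ℂ => m i j) h
  exact (algebraMap ℚ ℂ).injective h1

theorem kq_fP (x P : Matrix (Fin n) (Fin n) ℚ) : KQ x (fP P) ↔ xᵀ * P + P * x = 0 := by
  rw [kq_iff, kc_fP]
  have h1 : (x.map (algebraMap ℚ ℂ))ᵀ * P.map (algebraMap ℚ ℂ) +
      P.map (algebraMap ℚ ℂ) * x.map (algebraMap ℚ ℂ) = (xᵀ * P + P * x).map (algebraMap ℚ ℂ) := by
    have h2 : (xᵀ * P + P * x).map (algebraMap ℚ ℂ) =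
        (xᵀ * P).map (algebraMap ℚ ℂ) + (P * x).map (algebraMap ℚ ℂ) :=
      Matrix.map_add _ (map_add _) _ _
    rw [h2, map_mul', map_mul', Matrix.transpose_map]
  rw [h1]
  constructor
  · intro h
    exact map_inj (h.trans (Matrix.map_zero _ (map_zero _)).symm)
  · intro h
    rw [h]
    exact Matrix.map_zero _ (map_zero _)

theorem hodge_Q (s : S) : A.IsHodge s (fP A.Q) := by
  rw [hodge_iff, kc_fP]
  exact H_skew A s

/-- the polarisation as a bilinear form -/
noncomputable def om : (Fin n → ℚ) →ₗ[ℚ] (Fin n → ℚ) →ₗ[ℚ] ℚ := Matrix.toBilin' A.Q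

theorem om_apply (u v : Fin n → ℚ) : om A u v = u ⬝ᵥ A.Q *ᵥ v :=
  Matrix.toBilin'_apply' _ _ _

theorem Q_unit' (s : S) : IsUnit A.Q := by
  have h1 := Q_unit A s
  rw [Matrix.isUnit_iff_isUnit_det] at h1 ⊢
  have h2 : (A.QC).det = algebraMap ℚ ℂ A.Q.det := by
    have h3 := RingHom.map_det (algebraMap ℚ ℂ) A.Q
    rw [h3]
    rfl
  rw [h2] at h1
  rw [isUnit_iff_ne_zero] at h1 ⊢
  intro h
  rw [h, map_zero] at h1
  exact h1 rfl

theorem om_nondeg (s : S) : ∀ u, (∀ v, om A u v = 0) → u = 0 := by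
  intro u h
  have h1 := Q_unit' A s
  rw [← Matrix.vecMul_injective_iff_isUnit] at h1
  have h2 : u ᵥ* A.Q = 0 ᵥ* A.Q := by
    rw [Matrix.zero_vecMul]
    funext i
    have h3 := h (Pi.single i 1)
    rw [om_apply, Matrix.dotProduct_mulVec, dotProduct_single, mul_one] at h3
    exact h3
  exact h1 h2

theorem om_refl : ∀ u v, om A u v = 0 → om A v u = 0 := by
  intro u v h
  rw [om_apply] at h ⊢
  have h1 : v ⬝ᵥ A.Q *ᵥ u = u ⬝ᵥ A.Qᵀ *ᵥ v := by
    rw [Matrix.dotProduct_mulVec, dotProduct_comm, ← Matrix.mulVec_transpose]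
  rw [h1, A.symm, Matrix.smul_mulVec, dotProduct_smul, h, smul_zero]

theorem skew_iff (x : Module.End ℚ (Fin n → ℚ)) :
    IsSkew (om A) x ↔ (LinearMap.toMatrix' x)ᵀ * A.Q + A.Q * LinearMap.toMatrix' x = 0 := by
  have key : ∀ u v, om A (x u) v + om A u (x v) =
      u ⬝ᵥ ((LinearMap.toMatrix' x)ᵀ * A.Q + A.Q * LinearMap.toMatrix' x) *ᵥ v := by
    intro u v
    have h1 : ∀ y, x y = LinearMap.toMatrix' x *ᵥ y := fun y => by
      rw [LinearMap.toMatrix'_mulVec]
    rw [om_apply, om_apply, h1 u, h1 v, Matrix.add_mulVec, dotProduct_add, ← Matrix.mulVec_mulVec,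
      ← Matrix.mulVec_mulVec]
    congr 1
    rw [Matrix.dotProduct_mulVec u, Matrix.vecMul_transpose]
  constructor
  · intro h
    ext i j
    have h1 := h (Pi.single i 1) (Pi.single j 1)
    rw [key, Matrix.mulVec_single_one, single_dotProduct, one_mul] at h1
    exact h1
  · intro h u v
    rw [key, h, Matrix.zero_mulVec, dotProduct_zero]

theorem mt_skew (s : S) {x : Module.End ℚ (Fin n → ℚ)} (hx : x ∈ mt A s) : IsSkew (om A) x := by
  rw [skew_iff, ← kq_fP]
  exact (mem_mt A).1 hx 2 _ (hodge_Q A s)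

end Pool.Agent.Q50.HL
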