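import Pool.Agent.Q50.HL.Mt

/-!
# The Lie algebra which kills all Hodge classes acts semisimply
-/

set_option maxHeartbeats 4000000
set_option synthInstance.maxHeartbeats 400000

open Matrix Pool.Agent.H204R3.SP Pool.Agent.W516.KC

namespace Pool.Agent.Q50.HL

variable {S : Type} [TopologicalSpace S] {n : ℕ} (A : HodgeFamily S n)

/-- the complex vector of a rational vector -/
noncomputable def cx (v : Fin n → ℚ) (i : Fin n) : ℂ := algebraMap ℚ ℂ (v i)

theorem cx_mulVec (x : Matrix (Fin n) (Fin n) ℚ) (v : Fin n → ℚ) :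
    x.map (algebraMap ℚ ℂ) *ᵥ cx v = cx (x *ᵥ v) := by
  funext i
  unfold cx
  simp only [Matrix.mulVec, dotProduct, Matrix.map_apply]
  rw [map_sum]
  exact Finset.sum_congr rfl fun j _ => (map_mul _ _ _).symm

theorem cx_dot (u v : Fin n → ℚ) : cx u ⬝ᵥ cx v = algebraMap ℚ ℂ (u ⬝ᵥ v) := by
  unfold cx
  simp only [dotProduct]
  rw [map_sum]
  exact Finset.sum_congr rfl fun j _ => (map_mul _ _ _).symm

theorem cx_inj {u : Fin n → ℚ} (h : cx u = 0) : u = 0 := by
  funext i
  have h1 := congrFun h i
  exact (map_eq_zero_iff _ (algebraMap ℚ ℂ).injective).1 h1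

theorem star_cx (u : Fin n → ℚ) : star (cx u) = cx u := by
  funext i
  rw [Pi.star_apply]
  unfold cx
  simp

/-- the coordinates of `H` are elements of the Lie algebra -/
theorem mem_of_coord {s : S} {N : ℕ} {c : Fin N → ℂ} (hc : LinearIndependent ℚ c)
    {x : Fin N → Matrix (Fin n) (Fin n) ℚ}
    (hx : A.H s = ∑ j, c j • (x j).map (algebraMap ℚ ℂ)) (j : Fin N) :
    Matrix.toLin' (x j) ∈ mt A s := by
  rw [mem_mt]
  intro m f hf
  rw [LinearMap.toMatrix'_toLin']
  rw [hodge_iff, hx, kc_iff hc] at hf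
  exact hf j

theorem mt_semi (s : S) : Semi (mt A s) := by
  intro U hU
  obtain ⟨N, c, x, _, hc, hx, _⟩ := exists_coord (A.H s) (A.H s)
  have hxm := mem_of_coord A hc hx
  have hrefl : (om A).IsRefl := fun u v h => om_refl A u v h
  refine ⟨LinearMap.BilinForm.orthogonal (om A) U, ?_, ?_⟩
  · intro X hX m hm
    rw [LinearMap.BilinForm.mem_orthogonal_iff] at hm ⊢
    intro u hu
    have h1 := mt_skew A s hX u m
    rw [hm _ (hU X hX u hu), zero_add] at h1
    exact h1
  · rw [LinearMap.BilinForm.isCompl_orthogonal_iff_disjoint hrefl, Submodule.disjoint_def]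
    intro u hu hu'
    rw [LinearMap.BilinForm.mem_orthogonal_iff] at hu'
    let T : Submodule ℂ (Fin n → ℂ) := Submodule.span ℂ (cx '' (U : Set (Fin n → ℚ)))
    have hT : ∀ t ∈ T, A.H s *ᵥ t ∈ T := by
      intro t ht
      induction ht using Submodule.span_induction with
      | mem t h =>
        obtain ⟨v, hv, rfl⟩ := h
        rw [hx, Matrix.sum_mulVec]
        refine T.sum_mem fun j _ => ?_
        rw [Matrix.smul_mulVec, cx_mulVec]
        refine T.smul_mem _ (Submodule.subset_span ⟨_, ?_, rfl⟩)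
        have h1 := hU _ (hxm j) v hv
        rwa [Matrix.toLin'_apply] at h1
      | zero =>
        rw [Matrix.mulVec_zero]
        exact T.zero_mem
      | add a b _ _ ha hb =>
        rw [Matrix.mulVec_add]
        exact T.add_mem ha hb
      | smul a t _ ht =>
        rw [Matrix.mulVec_smul]
        exact T.smul_mem a ht
    have hQ : ∀ t ∈ T, cx u ⬝ᵥ A.QC *ᵥ t = 0 := by
      intro t ht
      induction ht using Submodule.span_induction with
      | mem t h =>
        obtain ⟨v, hv, rfl⟩ := h
        rw [cx_mulVec, cx_dot, ← om_apply, om_refl A v u (hu' v hv), map_zero]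
      | zero => rw [Matrix.mulVec_zero, dotProduct_zero]
      | add a b _ _ ha hb => rw [Matrix.mulVec_add, dotProduct_add, ha, hb, add_zero]
      | smul a t _ ht => rw [Matrix.mulVec_smul, dotProduct_smul, ht, smul_zero]
    refine cx_inj (eq_zero_of_form A s (cx u) fun p hp => hQ _ ?_)
    rw [star_cx]
    exact e_stable A s hp hT _ (Submodule.subset_span ⟨u, hu, rfl⟩)

/-- the Casimir form -/
noncomputable def casF (s : S) : (Fin 2 × Fin 2 → Fin n) → ℚ :=
  cf (Pool.Agent.Q50.FP.cas (mt A s) (mt_semi A s) (mt_bracket A s) (om A))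

/-- a matrix in the Lie algebra kills the Casimir form -/
theorem kills_casF (s : S) {x : Module.End ℚ (Fin n → ℚ)} (hx : x ∈ mt A s) :
    KQ (LinearMap.toMatrix' x) (casF A s) := by
  unfold casF
  rw [← kills_iff]
  exact Pool.Agent.W516.KC2.casimir_kills _ _ _ (mt_skew A s hx)
    fun Y hY => Pool.Agent.Q50.FP.der_ideal _ (mt_bracket A s) hx hY

end Pool.Agent.Q50.HL
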